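import Pool.Agent.helper68.B2.Defs3
import Pool.Agent.helper15.B2.T8a
import Pool.Agent.helper15.B2.T8b
import Pool.Agent.helper46.B2.T8c

/-! # B2 wave 4, module FI4: the final form near a triple point -/

set_option autoImplicit false

namespace Pool.Agent.helper68.B2

open scoped ContDiff Topology Matrix
open Matrix Set
open Pool.Agent.helper25.B2 (Sol Block)

variable {S : Geo}

/-! ## closedness from symmetry of the covariant derivative -/

theorem FI4_closed (S : Geo) {A : E4 → V3} {x : E4} (hx : x ≠ 0) (hA : DifferentiableAt ℝ A x)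
    (hs : ∀ X Y : V3, S.g x (S.nab A X x) Y = S.g x (S.nab A Y x) X) :
    ClosedF (fun u => S.G u *ᵥ A u) x := by
  intro i j
  have hα : DifferentiableAt ℝ (fun y => S.G y *ᵥ A y) x :=
    ((B0b_H_of (v := 0) (S.GA_diffG hx)).bilin B0b_bil_mulVec (B0b_H_of hA)).diff
  have hcomp : ∀ (v : V3) (k : Fin 3), Dv (fun y => (S.G y *ᵥ A y) k) v x =
      Dv (fun y => S.G y *ᵥ A y) v x k := by
    intro v k
    unfold Dv
    have h1 := hasFDerivAt_pi'.1 hα.hasFDerivAt k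
    rw [h1.fderiv]
    rfl
  have hD : ∀ a b : V3, Dv (fun y => S.G y *ᵥ A y) a x ⬝ᵥ b =
      S.g x (S.nab A a x) b + (S.G x *ᵥ A x) ⬝ᵥ (S.Gam a x *ᵥ b) := by
    intro a b
    rw [Dv_mulVec (S.GA_diffG hx) hA, S.metric_v hx]
    have h1 : S.g x (S.nab A a x) b = (S.G x *ᵥ S.nab A a x) ⬝ᵥ b := by
      rw [T.g_symm S hx, dotProduct_comm]; rfl
    rw [h1]
    unfold Geo.nab
    rw [mulVec_add, add_mulVec, add_dotProduct, add_dotProduct, add_dotProduct,
      ← mulVec_mulVec, ← mulVec_mulVec]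
    have h2 : ((S.Gam a x)ᵀ *ᵥ (S.G x *ᵥ A x)) ⬝ᵥ b = (S.G x *ᵥ A x) ⬝ᵥ (S.Gam a x *ᵥ b) := by
      rw [mulVec_transpose, ← dotProduct_mulVec]
    rw [h2]
    ring
  have hee : ∀ (v : V3) (k : Fin 3), v k = v ⬝ᵥ ee k := by
    intro v k
    rw [ee, dotProduct_single_one]
  have hGam : ∀ (a b : Fin 3), S.Gam (ee a) x *ᵥ ee b = fun k => S.Γ a x k b := by
    intro a b
    have h1 : S.Gam (ee a) x = S.Γ a x := by
      unfold Geo.Gam ee
      rw [Finset.sum_eq_single a]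
      · simp
      · intro c _ hc
        simp [hc]
      · simp
    rw [h1, ee, mulVec_single_one]
    rfl
  show Dv (fun y => (S.G y *ᵥ A y) j) (ee i) x - Dv (fun y => (S.G y *ᵥ A y) i) (ee j) x =
    2 * ∑ k, eps i j k * (S.G x *ᵥ A x) k
  rw [hcomp, hcomp, hee (Dv _ _ _) j, hee (Dv _ _ _) i, hD, hD, hs (ee i) (ee j), hGam, hGam]
  have h3 : (S.G x *ᵥ A x) ⬝ᵥ (fun k => S.Γ i x k j) - (S.G x *ᵥ A x) ⬝ᵥ (fun k => S.Γ j x k i) =
      2 * ∑ k, eps i j k * (S.G x *ᵥ A x) k := by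
    rw [← dotProduct_sub, dotProduct, Finset.mul_sum]
    refine Finset.sum_congr rfl fun k _ => ?_
    have h4 := S.torsion x hx i j k
    rw [Pi.sub_apply, h4]
    ring
  linarith

/-! ## algebra -/

theorem FI4_Ginv (S : Geo) {x : E4} (hx : x ≠ 0) : IsUnit (S.G x).det :=
  isUnit_iff_ne_zero.2 (S.det_neg x hx).ne

theorem FI4_K_Ku (S : Geo) {x : E4} (hx : x ≠ 0) (t : ℝ) : S.Ku t x * S.G x = S.K t x := by
  rw [Geo.Ku, Matrix.mul_assoc, Matrix.nonsing_inv_mul _ (FI4_Ginv S hx), Matrix.mul_one]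

theorem FI4_vv (S : Geo) (x : E4) (T v : V3) :
    vecMulVec T (S.G x *ᵥ T) *ᵥ v = bil (S.G x) v T • T := by
  ext i
  simp only [bil, mulVec, dotProduct, vecMulVec_apply, Pi.smul_apply, smul_eq_mul,
    Fin.sum_univ_three]
  ring

/-- the contravariant form of `T ⊗ T♭` -/
theorem FI4_Ku_of (S : Geo) {x : E4} (hx : x ≠ 0) {t : ℝ} {T : V3}
    (h : S.K t x = vecMulVec T (S.G x *ᵥ T)) : S.Ku t x = vecMulVec T T := by
  have h1 : S.Ku t x * S.G x = vecMulVec T T * S.G x := by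
    rw [FI4_K_Ku S hx, h, vecMulVec_mul]
    congr 1
    rw [← mulVec_transpose, S.symm x hx]
  have h2 : ∀ M : M3, M * S.G x * (S.G x)⁻¹ = M := by
    intro M
    rw [Matrix.mul_assoc, Matrix.mul_nonsing_inv _ (FI4_Ginv S hx), Matrix.mul_one]
  rw [← h2 (S.Ku t x), h1, h2]

theorem FI4_trace_nil {N : M3} (h : N ^ 3 = 0) : N.trace = 0 ∧ (N * N).trace = 0 := by
  have h1 : IsNilpotent N := ⟨3, h⟩
  have h2 : IsNilpotent (N * N) := (Commute.refl N).isNilpotent_mul_right h1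
  exact ⟨(Matrix.isNilpotent_trace_of_isNilpotent h1).eq_zero,
    (Matrix.isNilpotent_trace_of_isNilpotent h2).eq_zero⟩

theorem FI4_RR3_swap {L : M3} {a b c : ℝ} (h : RR3 L a b c) : RR3 L a c b := by
  intro t
  rw [h t]
  ring

/-- trace of the adjugate at a root -/
theorem FI4_trK (S : Geo) {x : E4} {a b c : ℝ} (h : RR3 (S.L x) a b c) :
    (S.K a x).trace = (a - b) * (a - c) := by
  obtain ⟨h1, h2, -⟩ := T8c_coef h
  rw [T8c_K_roots S h, trace_add, trace_sub, trace_smul, trace_smul, trace_one, h1, h2]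
  simp
  ring

/-- norm of the root vector at a root -/
theorem FI4_gTT (S : Geo) {x : E4} (hx : x ≠ 0) {A : V3} (hA : IsCyc S x A) {a b c : ℝ}
    (h : RR3 (S.L x) a b c) :
    S.g x (S.K a x *ᵥ A) (S.K a x *ᵥ A) = (a - b) * (a - c) := by
  have h1 := (J3_adj S hx hA (T8c_det S h)).1
  rw [← FI4_trK S h]
  conv_rhs => rw [h1]
  rw [trace_vecMulVec]
  rfl

/-! ## pointwise consequences of the final data -/

namespace FinData

variable (D : FinData S)

theorem FI4_s0 : D.s ≠ 0 := by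
  rcases D.hs with h | h <;> rw [h] <;> norm_num

theorem FI4_KZ {y : E4} (hy : y ≠ 0) (v : V3) :
    S.K (D.c y) y *ᵥ v = (D.s * S.g y v (D.Z y)) • D.Z y := by
  have h1 : S.K (D.c y) y = D.s • vecMulVec (D.Z y) (S.G y *ᵥ D.Z y) := by
    rw [← FI4_K_Ku S hy, (D.root y hy).2, smul_mul_assoc, vecMulVec_mul]
    congr 2
    rw [← mulVec_transpose, S.symm y hy]
  rw [h1, smul_mulVec, FI4_vv, smul_smul]
  rfl

theorem FI4_K_ne {y : E4} (hy : y ≠ 0) : S.K (D.c y) y ≠ 0 := by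
  intro h0
  obtain ⟨h1, h2⟩ := D.root y hy
  apply h1
  rw [Geo.Ku, h0, Matrix.zero_mul] at h2
  ext i
  have h3 := congrFun (congrFun h2 i) i
  simp only [Matrix.zero_apply, Matrix.smul_apply, vecMulVec_apply, smul_eq_mul] at h3
  have h4 : D.Z y i * D.Z y i = 0 := by
    rcases mul_eq_zero.1 h3.symm with h | h
    · exact absurd h D.FI4_s0
    · exact h
  simpa using mul_self_eq_zero.1 h4

theorem FI4_sq_ne {y : E4} (hy : y ≠ 0) (h3 : (S.L y - D.c y • (1 : M3)) ^ 3 = 0) :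
    (S.L y - D.c y • (1 : M3)) ^ 2 ≠ 0 := by
  intro h2
  apply D.FI4_K_ne hy
  obtain ⟨t1, t2⟩ := FI4_trace_nil h3
  rw [Geo.K, T8c_adj, t1, t2, ← pow_two, h2]
  simp

theorem FI4_F0 {y : E4} (h3 : (S.L y - D.c y • (1 : M3)) ^ 3 = 0) : T8c_F S y = 0 := by
  obtain ⟨t1, t2⟩ := FI4_trace_nil h3
  have e1 : (S.L y).trace = 3 * D.c y := by
    rw [trace_sub, trace_smul, trace_one] at t1
    simp at t1
    linarith
  have e2 : (S.L y * S.L y).trace = 3 * D.c y ^ 2 := by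
    rw [sub_mul, mul_sub, mul_sub, smul_mul_assoc, mul_smul_comm, smul_mul_assoc, mul_smul_comm,
      mul_one, one_mul, mul_one, smul_smul, trace_sub, trace_sub, trace_sub, trace_smul,
      trace_smul, trace_one, e1] at t2
    simp at t2
    linarith
  rw [T8c_F, e1, e2]
  ring

/-- at a point with a principal null vector: `s = 1` and `g(A, Z) = ±1` -/
theorem FI4_cyc {y : E4} (hy : y ≠ 0) {A : V3} (hA : IsCyc S y A) :
    D.s = 1 ∧ S.g y A (D.Z y) ^ 2 = 1 := by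
  obtain ⟨r₁, r₂, hr⟩ := D.real y hy
  have h1 := (J3_adj S hy hA (T8c_det S hr)).2
  rw [D.FI4_KZ hy, T8c_g_smul_left, T8c_g_symm S hy (D.Z y)] at h1
  rcases D.hs with h | h
  · refine ⟨h, ?_⟩
    rw [h] at h1
    linarith
  · exfalso
    rw [h] at h1
    nlinarith [sq_nonneg (S.g y A (D.Z y))]

/-- the root vectors at the roots near `c` -/
theorem FI4_w {y : E4} (hy : y ≠ 0) {A : V3} (hA : IsCyc S y A) {r a b : ℝ}
    (hr : RR3 (S.L y) r a b) (k : |r - D.c y| < D.ε / 4) (p : 0 < (S.K r y *ᵥ A) ⬝ᵥ D.Z y) :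
    D.w y r = (1 / ((r - a) * (r - b))) • (S.K r y *ᵥ A) := by
  obtain ⟨hs, -⟩ := D.FI4_cyc hy hA
  obtain ⟨h1, -⟩ := J3_adj S hy hA (T8c_det S hr)
  have hT := FI4_gTT S hy hA hr
  have h2 := FI4_Ku_of S hy h1
  set T := S.K r y *ᵥ A with hTdef
  have h3 : S.Ku r y *ᵥ D.Z y = (T ⬝ᵥ D.Z y) • T := by
    rw [h2]
    ext i
    simp only [mulVec, dotProduct, vecMulVec_apply, Pi.smul_apply, smul_eq_mul,
      Fin.sum_univ_three]
    ring
  have h4 : D.s * (D.Z y ⬝ᵥ (S.Ku r y *ᵥ D.Z y)) = (T ⬝ᵥ D.Z y) ^ 2 := by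
    rw [h3, hs, dotProduct_smul, dotProduct_comm (D.Z y) T, smul_eq_mul]
    ring
  have h5 : D.T y r = T := by
    rw [FinData.T, h4, Real.sqrt_sq p.le, h3, hs, smul_smul, one_div, inv_mul_cancel₀ p.ne',
      one_smul]
  rw [FinData.w, h5, hT, D.a_one _ k.le]

theorem FI4_zero {y : E4} (hy : y ≠ 0) {A : V3} {r a b : ℝ}
    (hr : RR3 (S.L y) r a b) (k : r ≠ D.c y) : S.g y (S.K r y *ᵥ A) (D.Z y) = 0 := by
  have h1 : S.L y *ᵥ (S.K r y *ᵥ A) = r • (S.K r y *ᵥ A) := by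
    have h2 : (S.L y - r • (1 : M3)) *ᵥ (S.K r y *ᵥ A) = 0 := by
      rw [mulVec_mulVec, Geo.K, Matrix.mul_adjugate, T8c_det S hr, zero_smul, zero_mulVec]
    rw [T8c_N] at h2
    exact sub_eq_zero.1 h2
  have h3 : S.L y *ᵥ D.Z y = D.c y • D.Z y := by
    obtain ⟨r₁, r₂, hr'⟩ := D.real y hy
    have h4 : (S.L y - D.c y • (1 : M3)) * S.K (D.c y) y = 0 := by
      rw [Geo.K, Matrix.mul_adjugate, T8c_det S hr', zero_smul]
    -- choose a vector with nonzero product with `Z`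
    obtain ⟨v, hv⟩ : ∃ v, S.g y v (D.Z y) ≠ 0 := by
      by_contra hcon
      push Not at hcon
      apply D.FI4_K_ne hy
      ext i j
      have h5 := D.FI4_KZ hy (ee j)
      rw [hcon, mul_zero, zero_smul, ee, mulVec_single_one] at h5
      exact congrFun h5 i
    have h6 : (S.L y - D.c y • (1 : M3)) *ᵥ (S.K (D.c y) y *ᵥ v) = 0 := by
      rw [mulVec_mulVec, h4, zero_mulVec]
    rw [D.FI4_KZ hy, mulVec_smul, T8c_N] at h6
    rcases smul_eq_zero.1 h6 with h | h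
    · exact absurd h (mul_ne_zero D.FI4_s0 hv)
    · exact sub_eq_zero.1 h
  have h7 := T8c_g_L S hy (S.K r y *ᵥ A) (D.Z y)
  rw [h1, h3, T8c_g_smul_left, T8c_g_smul_right] at h7
  have h8 : (r - D.c y) * S.g y (S.K r y *ᵥ A) (D.Z y) = 0 := by linarith
  rcases mul_eq_zero.1 h8 with h | h
  · exact absurd (sub_eq_zero.1 h) k
  · exact h

/-- exactly one further root equal to `c` -/
theorem FI4_double {y : E4} (hy : y ≠ 0) {A : V3} (hA : IsCyc S y A) (h1 : S.g y A (D.Z y) = 1)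
    {r : ℝ} (hr : RR3 (S.L y) (D.c y) (D.c y) r) (hrc : r ≠ D.c y)
    (k : |r - D.c y| < D.ε / 4) (p : 0 < (S.K r y *ᵥ A) ⬝ᵥ D.Z y) : D.IsTh y A := by
  obtain ⟨hs, -⟩ := D.FI4_cyc hy hA
  have hr' : RR3 (S.L y) r (D.c y) (D.c y) := (T8c_RR3_perm hr).2
  have hw := D.FI4_w hy hA hr' k p
  obtain ⟨hK, hTA⟩ := J3_adj S hy hA (T8c_det S hr')
  have hTT := FI4_gTT S hy hA hr'
  have hZ := D.FI4_zero hy (A := A) hr' hrc
  have hd : r - D.c y ≠ 0 := sub_ne_zero.2 hrc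
  have htr := FI4_trK S hr'
  set T := S.K r y *ᵥ A with hT
  refine ⟨D.c y, r, hr, Or.inr (Or.inl ⟨rfl, hrc, A - D.w y r, by abel, ?_, ?_, ?_⟩)⟩
  · show S.K r y *ᵥ (A - D.w y r) = 0
    rw [mulVec_sub, ← hT, hw, mulVec_smul, hK, FI4_vv]
    have h2 : bil (S.G y) T T = (r - D.c y) * (r - D.c y) := hTT
    rw [h2, smul_smul, one_div, inv_mul_cancel₀ (mul_ne_zero hd hd), one_smul, sub_self]
  · rw [T8c_g_sub_left, hw, T8c_g_smul_left, hZ, h1]
    ring
  · have h3 : (S.L y - r • (1 : M3)).adjugate.trace = (r - D.c y) * (r - D.c y) := htr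
    rw [T8c_g_sub_left, T8c_g_sub_right, T8c_g_sub_right, hw, T8c_g_smul_left, T8c_g_smul_right,
      T8c_g_smul_left, T8c_g_smul_right, hA.aa, hTA, T8c_g_symm S hy A T, hTA, hTT, h3, hs]
    field_simp
    ring

theorem FI4_point {y : E4} (hy : y ≠ 0) {A : V3} (hA : IsCyc S y A) (h1 : S.g y A (D.Z y) = 1)
    {r₁ r₂ : ℝ} (hr : RR3 (S.L y) (D.c y) r₁ r₂)
    (k1 : |r₁ - D.c y| < D.ε / 4) (k2 : |r₂ - D.c y| < D.ε / 4)
    (p1 : 0 < (S.K r₁ y *ᵥ A) ⬝ᵥ D.Z y) (p2 : 0 < (S.K r₂ y *ᵥ A) ⬝ᵥ D.Z y) :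
    D.IsTh y A := by
  obtain ⟨hs, -⟩ := D.FI4_cyc hy hA
  have hr1 : RR3 (S.L y) r₁ (D.c y) r₂ := (T8c_RR3_perm hr).1
  have hr2 : RR3 (S.L y) r₂ r₁ (D.c y) := (T8c_RR3_perm hr).2
  by_cases c1 : r₁ = D.c y
  · by_cases c2 : r₂ = D.c y
    · exact ⟨r₁, r₂, hr, Or.inr (Or.inr ⟨c1, c2, hA, h1⟩)⟩
    · refine D.FI4_double hy hA h1 ?_ c2 k2 p2
      rw [c1] at hr
      exact hr
  · by_cases c2 : r₂ = D.c y
    · refine D.FI4_double hy hA h1 ?_ c1 k1 p1
      rw [c2] at hr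
      exact FI4_RR3_swap hr
    · by_cases c12 : r₁ = r₂
      · exfalso
        have h2 : (S.L y - r₁ • (1 : M3)).adjugate.trace = 0 := by
          have h3 := FI4_trK S hr1
          rw [c12, sub_self, mul_zero, ← c12] at h3
          exact h3
        have h4 := D.sep y hy r₁ (T8c_det S hr1) h2 c1
        have := D.hε
        linarith
      · refine ⟨r₁, r₂, hr, Or.inl ⟨c1, c2, ?_⟩⟩
        have hK : S.K (D.c y) y *ᵥ A = D.Z y := by
          rw [D.FI4_KZ hy, h1, hs]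
          simp
        have hZZ : S.g y (D.Z y) (D.Z y) = (D.c y - r₁) * (D.c y - r₂) := by
          have h5 := FI4_gTT S hy hA hr
          rw [hK] at h5
          exact h5
        have h6 := J3_sum S hy hA hr (Ne.symm c1) (Ne.symm c2) c12
        rw [hK] at h6
        rw [D.FI4_w hy hA hr1 k1 p1, D.FI4_w hy hA hr2 k2 p2, hZZ, ← one_div]
        conv_lhs => rw [h6]
        rw [mul_comm (r₂ - r₁) (r₂ - D.c y)]

/-- FI4: near a triple point -/
theorem fin_triple {x : E4} (hx : x ≠ 0) (h3 : (S.L x - D.c x • (1 : M3)) ^ 3 = 0) :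
    ∃ (W : Set E4) (A : E4 → V3), IsOpen W ∧ x ∈ W ∧ ContDiffOn ℝ ∞ A W ∧
      ∀ y ∈ W, D.IsTh y (A y) ∧ ClosedF (fun u => S.G u *ᵥ A u) y := by
  obtain ⟨W0, A0, hW0, hxW, -, hsm, hcyc⟩ := J3_exists S hx h3 (D.FI4_sq_ne hx h3)
  -- the sign
  obtain ⟨σ, hσ⟩ : ∃ σ, σ = S.g x (A0 x) (D.Z x) := ⟨_, rfl⟩
  obtain ⟨hs, hσ2⟩ := D.FI4_cyc hx (hcyc x hxW)
  rw [← hσ] at hσ2
  obtain ⟨A, hA⟩ : ∃ A : E4 → V3, A = fun y => σ • A0 y := ⟨_, rfl⟩
  have hcycA : ∀ y ∈ W0, IsCyc S y (A y) := by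
    intro y hy
    obtain ⟨a0, a1, a2⟩ := hcyc y hy
    rw [hA]
    refine ⟨?_, ?_, ?_⟩
    · rw [T8c_g_smul_left, T8c_g_smul_right, a0]; ring
    · rw [mulVec_smul, T8c_g_smul_left, T8c_g_smul_right, a1]; ring
    · rw [mulVec_smul, mulVec_smul, T8c_g_smul_left, T8c_g_smul_right, a2]
      linarith
  have hsmA : ContDiffOn ℝ ∞ A W0 := by
    rw [hA]
    exact hsm.const_smul σ
  have hgA : S.g x (A x) (D.Z x) = 1 := by
    rw [hA]
    show S.g x (σ • A0 x) (D.Z x) = 1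
    rw [T8c_g_smul_left, ← hσ]
    linarith
  -- continuity
  have hpm : ({0}ᶜ : Set E4) ∈ 𝓝 x := isOpen_compl_singleton.mem_nhds hx
  have hWn : W0 ∈ 𝓝 x := hW0.isOpen.mem_nhds hxW
  have cAi : ∀ i, ContinuousAt (fun y => A y i) x := fun i =>
    continuousAt_pi.1 (hsmA.continuousOn.continuousAt hWn) i
  have cZi : ∀ i, ContinuousAt (fun y => D.Z y i) x := fun i =>
    continuousAt_pi.1 (D.cZ.continuousAt hpm) i
  have cc : ContinuousAt D.c x := D.cc.continuousAt hpm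
  have cL : ContinuousAt S.L x := S.smL.continuousOn.continuousAt hpm
  have cG : ContinuousAt S.G x := S.smG.continuousOn.continuousAt hpm
  have cLij : ∀ i j, ContinuousAt (fun y => S.L y i j) x := by
    intro i j
    let e : M3 →L[ℝ] ℝ := LinearMap.toContinuousLinearMap
      { toFun := fun M => M i j, map_add' := fun _ _ => rfl, map_smul' := fun _ _ => rfl }
    exact e.continuous.continuousAt.comp cL
  have cGij : ∀ i j, ContinuousAt (fun y => S.G y i j) x := by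
    intro i j
    let e : M3 →L[ℝ] ℝ := LinearMap.toContinuousLinearMap
      { toFun := fun M => M i j, map_add' := fun _ _ => rfl, map_smul' := fun _ _ => rfl }
    exact e.continuous.continuousAt.comp cG
  have cg : ContinuousAt (fun y => S.g y (A y) (D.Z y)) x := by
    unfold Geo.g bil
    simp only [mulVec, dotProduct]
    exact tendsto_finsetSum _ fun i _ => (cAi i).mul
      (tendsto_finsetSum _ fun j _ => (cGij i j).mul (cZi j))
  have cF : ContinuousAt (T8c_F S) x := (T8c_smF S).continuousOn.continuousAt hpm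
  have cfst : ∀ f : E4 → ℝ, ContinuousAt f x →
      ContinuousAt (fun q : E4 × ℝ => f q.1) (x, D.c x) := by
    intro f hf
    exact ContinuousAt.comp (g := f) (f := fun q : E4 × ℝ => q.1) (x := (x, D.c x)) hf
      continuousAt_fst
  have cLq : ∀ i j, ContinuousAt (fun q : E4 × ℝ => S.L q.1 i j) (x, D.c x) := fun i j =>
    cfst _ (cLij i j)
  have ct : ContinuousAt (fun q : E4 × ℝ => q.2) (x, D.c x) := continuousAt_snd
  have cK : ∀ i j, ContinuousAt (fun q : E4 × ℝ => (S.K q.2 q.1) i j) (x, D.c x) := by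
    intro i j
    have l00 := cLq 0 0
    have l01 := cLq 0 1
    have l02 := cLq 0 2
    have l10 := cLq 1 0
    have l11 := cLq 1 1
    have l12 := cLq 1 2
    have l20 := cLq 2 0
    have l21 := cLq 2 1
    have l22 := cLq 2 2
    fin_cases i <;> fin_cases j <;>
      simp [Geo.K, Matrix.adjugate_fin_three, Matrix.sub_apply, Matrix.smul_apply] <;> fun_prop
  have cP : ContinuousAt (fun q : E4 × ℝ => (S.K q.2 q.1 *ᵥ A q.1) ⬝ᵥ D.Z q.1) (x, D.c x) := by
    simp only [mulVec, dotProduct]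
    exact tendsto_finsetSum _ fun i _ => (tendsto_finsetSum _ fun j _ =>
      (cK i j).mul (cfst _ (cAi j))).mul (cfst _ (cZi i))
  have hP0 : 0 < (S.K (D.c x) x *ᵥ A x) ⬝ᵥ D.Z x := by
    rw [D.FI4_KZ hx, hgA, hs, one_mul, one_smul]
    have h1 := (D.root x hx).1
    have h2 : D.Z x ⬝ᵥ D.Z x ≠ 0 := fun h => h1 (dotProduct_self_eq_zero.1 h)
    have h3 : 0 ≤ D.Z x ⬝ᵥ D.Z x := by
      rw [dotProduct]
      exact Finset.sum_nonneg fun i _ => mul_self_nonneg _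
    exact lt_of_le_of_ne h3 (Ne.symm h2)
  have eP := cP.eventually (lt_mem_nhds hP0)
  rw [nhds_prod_eq, Filter.eventually_prod_iff] at eP
  obtain ⟨p₁, hp₁, p₂, hp₂, hp⟩ := eP
  obtain ⟨δ, hδ, hδp⟩ := Metric.eventually_nhds_iff.1 hp₂
  -- the smallness of the differences of the roots
  obtain ⟨η, hη⟩ : ∃ η, η = min (D.ε / 4) (δ / 2) := ⟨_, rfl⟩
  have hη0 : 0 < η := by
    rw [hη]
    have := D.hε
    exact lt_min (by linarith) (by linarith)
  have eF : ∀ᶠ y in 𝓝 x, T8c_F S y < η ^ 2 / 2 := by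
    refine cF.eventually (gt_mem_nhds ?_)
    rw [D.FI4_F0 h3]
    positivity
  have ec : ∀ᶠ y in 𝓝 x, dist (D.c y) (D.c x) < δ / 2 :=
    (Metric.tendsto_nhds.1 cc) _ (by linarith)
  have eg : ∀ᶠ y in 𝓝 x, 0 < S.g y (A y) (D.Z y) := by
    refine cg.eventually (lt_mem_nhds ?_)
    show 0 < S.g x (A x) (D.Z x)
    rw [hgA]
    norm_num
  have eall : ∀ᶠ y in 𝓝 x, y ∈ W0 ∧ T8c_F S y < η ^ 2 / 2 ∧ dist (D.c y) (D.c x) < δ / 2 ∧
      0 < S.g y (A y) (D.Z y) ∧ p₁ y := by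
    filter_upwards [hWn, eF, ec, eg, hp₁] with y h1 h2 h3 h4 h5 using ⟨h1, h2, h3, h4, h5⟩
  obtain ⟨W, hW, hWo, hxW'⟩ := eventually_nhds_iff.1 eall
  refine ⟨W, A, hWo, hxW', hsmA.mono fun y hy => (hW y hy).1, fun y hy => ?_⟩
  obtain ⟨w1, w2, w3, w4, w5⟩ := hW y hy
  have hy0 : y ≠ 0 := by rintro rfl; exact hW0.zero w1
  refine ⟨?_, ?_⟩
  · obtain ⟨r₁, r₂, hr⟩ := D.real y hy0
    have hF := T8c_F_roots S hr
    have hclose : ∀ r : ℝ, (r - D.c y) ^ 2 ≤ 2 * T8c_F S y → |r - D.c y| < η := by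
      intro r hr'
      have h1 : (r - D.c y) ^ 2 < η ^ 2 := by linarith
      exact abs_lt_of_sq_lt_sq h1 hη0.le
    have k1 : |r₁ - D.c y| < η := by
      apply hclose
      rw [hF]
      nlinarith [sq_nonneg (r₁ - r₂), sq_nonneg (D.c y - r₂)]
    have k2 : |r₂ - D.c y| < η := by
      apply hclose
      rw [hF]
      nlinarith [sq_nonneg (r₁ - r₂), sq_nonneg (D.c y - r₁)]
    have hε : η ≤ D.ε / 4 := by rw [hη]; exact min_le_left _ _
    have hδ' : η ≤ δ / 2 := by rw [hη]; exact min_le_right _ _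
    have hpos : ∀ r : ℝ, |r - D.c y| < η → 0 < (S.K r y *ᵥ A y) ⬝ᵥ D.Z y := by
      intro r hr'
      have h1 : dist r (D.c x) < δ := by
        refine (dist_triangle r (D.c y) (D.c x)).trans_lt ?_
        rw [Real.dist_eq r (D.c y)]
        linarith
      exact hp w5 (hδp h1)
    have hg1 : S.g y (A y) (D.Z y) = 1 := by
      have h1 := (D.FI4_cyc hy0 (hcycA y w1)).2
      have h2 : (S.g y (A y) (D.Z y) - 1) * (S.g y (A y) (D.Z y) + 1) = 0 := by linarith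
      rcases mul_eq_zero.1 h2 with h | h
      · linarith
      · linarith
    exact D.FI4_point hy0 (hcycA y w1) hg1 hr (k1.trans_le hε) (k2.trans_le hε) (hpos _ k1)
      (hpos _ k2)
  · have hd : DifferentiableAt ℝ A y :=
      (hsmA.contDiffAt (hW0.isOpen.mem_nhds w1)).differentiableAt (by simp)
    exact FI4_closed S hy0 hd fun X Y => T8b_symm S hW0 hsmA hcycA w1 X Y

end FinData

end Pool.Agent.helper68.B2
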